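import Pool.Agent.EGB.Fin
import Pool.Agent.EGB.Dual
import Pool.Agent.EGB.P_EGV
import Pool.Agent.EGB.P_NSO
import Pool.Agent.EGB.P_MIN
import Pool.Agent.EGB.P_URK
import Pool.Agent.EGB.P_EL2
import Pool.Agent.EGB.P_SCL
import Pool.Agent.EGB.P_IMG
import Pool.Agent.EGB.P_CST
import Pool.Agent.EGB.P_RDS
import Pool.Agent.EGB.P_NRB
import Pool.Agent.EGB.P_VAL
import Pool.Agent.EGB.P_TRF
import Pool.Agent.EGB.P_INQ
import Pool.Agent.EGB.P_ALG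
import Pool.Agent.EGB.P_QUA
import Pool.Agent.EGB.P_NRS
import Pool.Agent.EGB.P_IN2
import Pool.Agent.EGB.P_XEX
import Pool.Agent.EGB.P_XC2
import Pool.Agent.EGB.P_XC1
import Pool.Agent.EGB.P_XC0
import Pool.Agent.EGB.P_IN3
import Pool.Agent.EGN.P_TBL
import Pool.Agent.EGN.P_EXT
import Pool.Agent.EGN.P_C2
import Pool.Agent.EGN.P_C1
import Pool.Agent.EGN.P_C0
import Pool.Agent.EGN.P_LYM

/-!
# The Eisenbud-Green-Harris inequality in the degrees two and three at all binomials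

`K` is any field, `R = K[x_1, ..., x_n]`, `I` a homogeneous ideal of `R` which contains a regular
sequence of `n` quadrics, and `h_d = dim_K (R/I)_d`. If `h_2 ≤ C(m,2)` then `h_3 ≤ C(m,3)`, and if
`h_(n-2) ≥ C(n,2) - C(m,2)` then `h_(n-3) ≥ C(n,3) - C(m,3)`.
-/

set_option autoImplicit false
open MvPolynomial

namespace Pool.Agent.Results.MP_e5dae2_al.BinomialGrowth

universe u

noncomputable section

/-- `dim_K (R/I)_d`: the dimension of the image in `R/I` of the forms of degree `d`. -/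
def HF {K : Type u} [Field K] {n : ℕ} (I : Ideal (MvPolynomial (Fin n) K)) (d : ℕ) : ℕ :=
  Module.finrank K ((MvPolynomial.homogeneousSubmodule (Fin n) K d).map
    (Ideal.Quotient.mkₐ K I).toLinearMap)

/-- Growth of the Hilbert function of `R/I` from degree two to degree three, for all homogeneous
ideals `I` which contain a regular sequence of `n` quadrics, `n` the number of variables. -/
theorem result :
    ∀ (K : Type u) [Field K] (n : ℕ) (I : Ideal (MvPolynomial (Fin n) K))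
      (f : Fin n → MvPolynomial (Fin n) K),
      (∀ p ∈ I, ∀ d : ℕ, MvPolynomial.homogeneousComponent d p ∈ I) →
      (∀ i, (f i).IsHomogeneous 2) →
      (∀ i, f i ∈ I) →
      RingTheory.Sequence.IsRegular (MvPolynomial (Fin n) K) (List.ofFn f) →
      (∀ m : ℕ, HF I 2 ≤ m.choose 2 → HF I 3 ≤ m.choose 3) ∧
      (∀ m r c : ℕ, 2 ≤ m → r + 1 ≤ m → (50 ≤ m ∨ 85 ≤ c) → HF I 2 + r ≤ m.choose 2 →
        8 * HF I 3 + 4 * m * r + 2 * r ≤ 8 * m.choose 3 + r ^ 2 + c ∧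
        8 * HF I 3 + 6 * m * r + 5 ≤ 8 * m.choose 3 + m ^ 2 + r ^ 2 + 4 * m + 4 * r + c) ∧
      3 * HF I 3 + 2 * HF I 2 ≤ n * HF I 2 ∧
      (3 ≤ n →
        (∀ m : ℕ, n.choose 2 ≤ HF I (n - 2) + m.choose 2 →
          n.choose 3 ≤ HF I (n - 3) + m.choose 3) ∧
        n * HF I (n - 2) ≤ 3 * HF I (n - 3) + 2 * HF I (n - 2)) := by
  intro K _ n I f _ hf hfI hreg
  -- the inequality `3 h_3 ≤ (n - 2) h_2`
  have hT := Pool.Agent.EGN.p_TBL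
  have hE := Pool.Agent.EGN.p_EXT hT
  have hELM := Pool.Agent.EGN.p_ELM.{u}
  have hSTP := Pool.Agent.EGN.p_STP hELM (Pool.Agent.EGN.p_SOQ hELM)
  have hC2 := Pool.Agent.EGN.p_C2 hT hE
  have hC1 := Pool.Agent.EGN.p_C1 hT hE
  have hC0 := Pool.Agent.EGN.p_C0 hT hE
  have hIND := Pool.Agent.EGN.p_IND hSTP Pool.Agent.EGN.p_GBQ
  have hLYM := Pool.Agent.EGN.p_LYM hT hE
  obtain ⟨-, -, h3⟩ := Pool.Agent.EGN.fin hT hE hC2 hC1 hC0 hIND Pool.Agent.EGN.p_BCH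
    Pool.Agent.EGN.p_GBQ hLYM Pool.Agent.EGN.p_DEG K n I f hf hfI hreg
  -- the exact bound
  have hEGV := Pool.Agent.EGN.B.p_EGV.{u}
  have hEL2 := Pool.Agent.EGN.B.p_EL2.{u}
  have hURK := Pool.Agent.EGN.B.p_URK.{u}
  have hNRB := Pool.Agent.EGN.B.p_NRB.{u}
  have hRDS := Pool.Agent.EGN.B.p_RDS hEGV hEL2
  have hCST := Pool.Agent.EGN.B.p_CST (Pool.Agent.EGN.B.p_MIN hEGV) (Pool.Agent.EGN.B.p_IMG hURK)
  have hINQ := Pool.Agent.EGN.B.p_INQ Pool.Agent.EGN.B.p_VAL Pool.Agent.EGN.B.p_TRF.{u}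
  have hQUA := Pool.Agent.EGN.B.p_QUA hINQ Pool.Agent.EGN.B.p_ALG
  have hNRS := Pool.Agent.EGN.B.p_NRS hEL2 (Pool.Agent.EGN.B.p_NSO hEGV) hRDS hNRB hQUA hCST hURK
  have hIN2 := Pool.Agent.EGN.B.p_IN2 hRDS hNRS (Pool.Agent.EGN.B.p_SCL hEL2) hNRB
  have hXEX := Pool.Agent.EGN.B.p_XEX
  obtain ⟨h1, h2⟩ := Pool.Agent.EGN.B.fin hXEX (Pool.Agent.EGN.B.p_XC2 hXEX)
    (Pool.Agent.EGN.B.p_XC1 hXEX) (Pool.Agent.EGN.B.p_XC0 hXEX) hIN2 Pool.Agent.EGN.B.p_IN3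
    Pool.Agent.EGN.p_BCH Pool.Agent.EGN.p_DEG K n I f hf hfI hreg
  have hs : ∀ (K : Type u) [Field K] (n : ℕ) (W : Submodule K (Pool.Agent.EGU.R K n)),
      Pool.Agent.EGN.Sys K n W →
      (∀ m : ℕ, Pool.Agent.EGN.hh W ≤ m.choose 2 → Pool.Agent.EGN.tt W ≤ m.choose 3) ∧
      3 * Pool.Agent.EGN.tt W + 2 * Pool.Agent.EGN.hh W ≤ n * Pool.Agent.EGN.hh W :=
    fun K _ n W hW => ⟨Pool.Agent.EGN.B.sysbin hXEX (Pool.Agent.EGN.B.p_XC2 hXEX)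
      (Pool.Agent.EGN.B.p_XC1 hXEX) (Pool.Agent.EGN.B.p_XC0 hXEX) hIN2 Pool.Agent.EGN.B.p_IN3
      Pool.Agent.EGN.p_BCH K n W hW,
      (Pool.Agent.EGN.sys_bound hT hE hC2 hC1 hC0 hIND Pool.Agent.EGN.p_BCH
        Pool.Agent.EGN.p_GBQ hLYM K n W hW).2⟩
  refine ⟨h1, fun m r c hm hr hc h => ?_, h3, fun hn =>
    Pool.Agent.EGN.B.fin_dual hs K n hn I f hf hfI hreg⟩
  obtain ⟨h4, h5⟩ := h2 m r c hm hr hc h
  change 8 * (HF I 3 : ℤ) + r * (4 * m - r + 2) ≤ 8 * m.choose 3 + c at h4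
  change 8 * (HF I 3 : ℤ) + (-m ^ 2 + 6 * m * r - r ^ 2 - 4 * m - 4 * r + 5) ≤
    8 * m.choose 3 + c at h5
  constructor
  · have h6 : ((8 * HF I 3 + 4 * m * r + 2 * r : ℕ) : ℤ) ≤
        ((8 * m.choose 3 + r ^ 2 + c : ℕ) : ℤ) := by
      push_cast
      linarith
    exact_mod_cast h6
  · have h6 : ((8 * HF I 3 + 6 * m * r + 5 : ℕ) : ℤ) ≤
        ((8 * m.choose 3 + m ^ 2 + r ^ 2 + 4 * m + 4 * r + c : ℕ) : ℤ) := by
      push_cast
      linarith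
    exact_mod_cast h6

end

end Pool.Agent.Results.MP_e5dae2_al.BinomialGrowth
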