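import Pool.Agent.EGU.All

/-!
# A growth inequality modulo a regular sequence

`K` any field, `R = K[x_1, ..., x_n]`, `I` a homogeneous ideal containing a regular sequence `f` of
forms of degrees `a_1 ≤ ... ≤ a_n`. We write `v_d = dim I_d / (f)_d` and
`S_j = ∑_{i ≤ j} (a_i - 1)`.
-/

set_option autoImplicit false
open MvPolynomial

namespace Pool.Agent.Results.MP_e5dae2_al.GrowthBound

universe u

noncomputable section

/-- `dim I_d`. -/
def dimI {K : Type u} [Field K] {n : ℕ} (I : Ideal (MvPolynomial (Fin n) K)) (d : ℕ) : ℕ :=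
  Module.finrank K ↥(MvPolynomial.homogeneousSubmodule (Fin n) K d ⊓
    Submodule.restrictScalars K I)

/-- `v_d = dim I_d - dim (f)_d`. -/
def v {K : Type u} [Field K] {n : ℕ} (f : Fin n → MvPolynomial (Fin n) K)
    (I : Ideal (MvPolynomial (Fin n) K)) (d : ℕ) : ℕ :=
  dimI I d - dimI (Ideal.span (Set.range f)) d

/-- `S_j`, the sum of `a_i - 1` over the first `j` indices `i`. -/
def S {n : ℕ} (a : Fin n → ℕ) (j : ℕ) : ℕ :=
  ∑ i ∈ Finset.univ.filter (fun i : Fin n => (i : ℕ) < j), (a i - 1)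

/-- The number of `j` in `1, ..., n` with `a_j ≤ d + 1` and `S_j ≤ x`. -/
def P {n : ℕ} (a : Fin n → ℕ) (d x : ℕ) : ℕ :=
  (Finset.univ.filter (fun j : Fin n => a j ≤ d + 1 ∧ S a (j + 1) ≤ x)).card

/-- `v_{d+1} ≥ ∑_{i < v_d} max (0, n - i - P_d (d + i))`, where `P_d (x)` is the number of `j` with
`a_j ≤ d + 1` and `S_j ≤ x`. -/
theorem result :
    ∀ (K : Type u) [Field K] (n : ℕ) (I : Ideal (MvPolynomial (Fin n) K))
      (a : Fin n → ℕ) (f : Fin n → MvPolynomial (Fin n) K),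
      (∀ p ∈ I, ∀ d : ℕ, MvPolynomial.homogeneousComponent d p ∈ I) →
      Monotone a →
      (∀ i, 1 ≤ a i) →
      (∀ i, (f i).IsHomogeneous (a i)) →
      (∀ i, f i ∈ I) →
      RingTheory.Sequence.IsRegular (MvPolynomial (Fin n) K) (List.ofFn f) →
      ∀ d, ∑ i ∈ Finset.range (v f I d), (n - (i + P a d (d + i))) ≤ v f I (d + 1) := by
  intro K _ n I a f _ hm h1 hhom hfI hreg d
  exact Pool.Agent.EGU.a_growth K n I a f hm h1 hhom hfI hreg d

end

end Pool.Agent.Results.MP_e5dae2_al.GrowthBound
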