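import Pool.Agent.EGU.All

/-!
# The Eisenbud-Green-Harris conjecture for small dimensions modulo the regular sequence

`K` any field, `R = K[x_1, ..., x_n]`, `I` a homogeneous ideal containing a regular sequence `f` of
forms of degrees `2 ≤ a_1 ≤ ... ≤ a_n`. We write `v_d = dim I_d / (f)_d`, `q_d = dim (R/I)_d` and
`S_j = ∑_{i ≤ j} (a_i - 1)`.
-/

set_option autoImplicit false
open MvPolynomial

namespace Pool.Agent.Results.MP_e5dae2_al.SmallGrowth

universe u

noncomputable section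

/-- `dim I_d`. -/
def dimI {K : Type u} [Field K] {n : ℕ} (I : Ideal (MvPolynomial (Fin n) K)) (d : ℕ) : ℕ :=
  Module.finrank K ↥(MvPolynomial.homogeneousSubmodule (Fin n) K d ⊓
    Submodule.restrictScalars K I)

/-- `v_d = dim I_d - dim (f)_d`. -/
def v {K : Type u} [Field K] {n : ℕ} (f : Fin n → MvPolynomial (Fin n) K)
    (I : Ideal (MvPolynomial (Fin n) K)) (d : ℕ) : ℕ :=
  dimI I d - dimI (Ideal.span (Set.range f)) d

/-- `q_d = dim R_d - dim I_d`. -/
def q {K : Type u} [Field K] {n : ℕ} (I : Ideal (MvPolynomial (Fin n) K)) (d : ℕ) : ℕ :=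
  Module.finrank K (MvPolynomial.homogeneousSubmodule (Fin n) K d) - dimI I d

/-- `S_j`, the sum of `a_i - 1` over the first `j` indices `i`. -/
def S {n : ℕ} (a : Fin n → ℕ) (j : ℕ) : ℕ :=
  ∑ i ∈ Finset.univ.filter (fun i : Fin n => (i : ℕ) < j), (a i - 1)

/-- The range condition for a degree `d` and a dimension `v`: `v ≤ 2`, or `S_p < d < S_{p+1}`,
`v ≤ n - p` and (`d + v ≤ S_{p+1} + 1` or `a_{p+1} ≥ d + 2`) for some `p < n`. -/
def Rng {n : ℕ} (a : Fin n → ℕ) (d v : ℕ) : Prop :=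
  v ≤ 2 ∨ ∃ (p : ℕ) (hp : p < n), S a p < d ∧ d < S a (p + 1) ∧ v + p ≤ n ∧
    (d + v ≤ S a (p + 1) + 1 ∨ d + 2 ≤ a ⟨p, hp⟩)

/-- The range condition holds for `v_d` in degree `d`, or for `q_{d+1}` in the dual degree
`d' = S_n - d - 1`. -/
def Cond {K : Type u} [Field K] {n : ℕ} (a : Fin n → ℕ) (f : Fin n → MvPolynomial (Fin n) K)
    (I : Ideal (MvPolynomial (Fin n) K)) (d : ℕ) : Prop :=
  Rng a d (v f I d) ∨ ∃ d', d + d' + 1 = S a n ∧ Rng a d' (q I (d + 1))

/-- There is a lex ideal `J` such that `I` and `(x_1^{a_1}, ..., x_n^{a_n}) + J` have the same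
Hilbert function in all degrees `e ∈ E`. -/
def LexPlusPowers {K : Type u} [Field K] {n : ℕ} (a : Fin n → ℕ)
    (I : Ideal (MvPolynomial (Fin n) K)) (E : Set ℕ) : Prop :=
  ∃ J : Ideal (MvPolynomial (Fin n) K),
    (∃ S : Set (Fin n →₀ ℕ),
      J = Ideal.span ((fun s => (MvPolynomial.monomial s (1 : K))) '' S)) ∧
    (∀ m m' : Fin n →₀ ℕ, (∑ i, m i) = (∑ i, m' i) →
      (∃ j : Fin n, (∀ k, k < j → m k = m' k) ∧ m j < m' j) →
      MvPolynomial.monomial m (1 : K) ∈ J → MvPolynomial.monomial m' (1 : K) ∈ J) ∧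
    ∀ e ∈ E,
      Module.finrank K ↥(MvPolynomial.homogeneousSubmodule (Fin n) K e ⊓
          Submodule.restrictScalars K I) =
        Module.finrank K ↥(MvPolynomial.homogeneousSubmodule (Fin n) K e ⊓
          Submodule.restrictScalars K (Ideal.span (Set.range fun i : Fin n =>
            (MvPolynomial.X i : MvPolynomial (Fin n) K) ^ a i) ⊔ J))

/-- Let `E` be an interval of degrees such that the range condition holds for all `d` with
`d, d + 1 ∈ E` (in particular if `dim I_d / (f)_d ≤ 2` or `dim (R/I)_{d+1} ≤ 2`). Then there is a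
lex ideal `J` such that `I` and `(x_1^{a_1}, ..., x_n^{a_n}) + J` have the same Hilbert function in
the degrees in `E`. -/
theorem result :
    ∀ (K : Type u) [Field K] (n : ℕ) (I : Ideal (MvPolynomial (Fin n) K))
      (a : Fin n → ℕ) (f : Fin n → MvPolynomial (Fin n) K),
      (∀ p ∈ I, ∀ d : ℕ, MvPolynomial.homogeneousComponent d p ∈ I) →
      Monotone a →
      (∀ i, 2 ≤ a i) →
      (∀ i, (f i).IsHomogeneous (a i)) →
      (∀ i, f i ∈ I) →
      RingTheory.Sequence.IsRegular (MvPolynomial (Fin n) K) (List.ofFn f) →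
      ∀ E : Set ℕ, E.OrdConnected →
        (∀ d, d ∈ E → d + 1 ∈ E → Cond a f I d) → LexPlusPowers a I E := by
  intro K _ n I a f _ hm h2 hhom hfI hreg E hE h
  exact Pool.Agent.EGU.a_final K n I a f hm h2 hhom hfI hreg E hE h

end

end Pool.Agent.Results.MP_e5dae2_al.SmallGrowth
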