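import Pool.Agent.EGY.All

/-!
# The Eisenbud-Green-Harris conjecture: small degree sequences and split forms

`K` any field, `R = K[x_1, ..., x_n]`, `I` a homogeneous ideal containing a regular sequence `f` of
forms of degrees `2 ≤ a_1 ≤ ... ≤ a_n`, `S_j = ∑_{i ≤ j} (a_i - 1)`.
-/

set_option autoImplicit false
open MvPolynomial

namespace Pool.Agent.Results.MP_e5dae2_al.SmallOrSplit

universe u

noncomputable section

/-- `S_j`, the sum of `a_i - 1` over the first `j` indices `i`. -/
def S {n : ℕ} (a : Fin n → ℕ) (j : ℕ) : ℕ :=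
  ∑ i ∈ Finset.univ.filter (fun i : Fin n => (i : ℕ) < j), (a i - 1)

/-- Small sequences: for some `m ≤ n` one has `m ≤ 3`, or `S_m ≤ 6`, or `m = 4` and `a_1 + a_2 ≤ 5`,
and `a_j ≥ S_{j-1}` for all `j > m` (here `j` is `j + 1`, as the entries are numbered from `0`). -/
def Small {n : ℕ} (a : Fin n → ℕ) : Prop :=
  ∃ m, m ≤ n ∧ (m ≤ 3 ∨ S a m ≤ 6 ∨
    (m = 4 ∧ ∀ i j : Fin n, (i : ℕ) = 0 → (j : ℕ) = 1 → a i + a j ≤ 5)) ∧
    ∀ (j : ℕ) (h : j < n), m ≤ j → S a j ≤ a ⟨j, h⟩

/-- The last `k` entries of the sequence `b` of length `m`. -/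
def last {m : ℕ} (b : Fin m → ℕ) (k : ℕ) (h : k ≤ m) : Fin k → ℕ :=
  fun i => b ⟨m - k + i, by omega⟩

/-- The degrees `a_i`, `i ∈ T`, in increasing order of `i`. -/
def sub {n : ℕ} (a : Fin n → ℕ) (T : Finset (Fin n)) : Fin T.card → ℕ :=
  fun i => a (T.orderEmbOfFin rfl i)

/-- `p` is a product of `d` linear forms over the algebraic closure of `K`. -/
def Splits {K : Type u} [Field K] {n : ℕ} (d : ℕ) (p : MvPolynomial (Fin n) K) : Prop :=
  ∃ l : Fin d → MvPolynomial (Fin n) (AlgebraicClosure K),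
    (∀ k, (l k).IsHomogeneous 1) ∧
    MvPolynomial.map (algebraMap K (AlgebraicClosure K)) p = ∏ k, l k

/-- `dim I_d`. -/
def dimI {K : Type u} [Field K] {n : ℕ} (I : Ideal (MvPolynomial (Fin n) K)) (d : ℕ) : ℕ :=
  Module.finrank K ↥(MvPolynomial.homogeneousSubmodule (Fin n) K d ⊓
    Submodule.restrictScalars K I)

/-- Let `T` be a set of indices such that `f_i` is a product of linear forms over the algebraic
closure of `K` for all `i ∉ T`, and such that the last `k` of the degrees `a_i`, `i ∈ T`, form a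
small sequence. Suppose that `k = #T`, or `dim (R/I)_2 ≤ 2 k`, or
`dim I_{s-2} ≤ dim (f)_{s-2} + 2 k`, where `s = S_n`. Then there is a lex ideal `J` such that `I` and
`(x_1 ^ a_1, ..., x_n ^ a_n) + J` have the same Hilbert function. -/
theorem result :
    ∀ (K : Type u) [Field K] (n : ℕ) (I : Ideal (MvPolynomial (Fin n) K))
      (a : Fin n → ℕ) (f : Fin n → MvPolynomial (Fin n) K),
      (∀ p ∈ I, ∀ d : ℕ, MvPolynomial.homogeneousComponent d p ∈ I) →
      Monotone a →
      (∀ i, 2 ≤ a i) →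
      (∀ i, (f i).IsHomogeneous (a i)) →
      (∀ i, f i ∈ I) →
      RingTheory.Sequence.IsRegular (MvPolynomial (Fin n) K) (List.ofFn f) →
      (∃ (T : Finset (Fin n)) (k : ℕ) (h : k ≤ T.card),
        (∀ i, i ∉ T → Splits (a i) (f i)) ∧
        Small (last (sub a T) k h) ∧
        (k = T.card ∨
          Module.finrank K (MvPolynomial.homogeneousSubmodule (Fin n) K 2) ≤
            dimI I 2 + 2 * k ∨
          dimI I (S a n - 2) ≤ dimI (Ideal.span (Set.range f)) (S a n - 2) + 2 * k)) →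
      ∃ J : Ideal (MvPolynomial (Fin n) K),
        (∃ X : Set (Fin n →₀ ℕ),
            J = Ideal.span ((fun s => (MvPolynomial.monomial s (1 : K))) '' X)) ∧
        (∀ m m' : Fin n →₀ ℕ, (∑ i, m i) = (∑ i, m' i) →
            (∃ j : Fin n, (∀ k, k < j → m k = m' k) ∧ m j < m' j) →
            MvPolynomial.monomial m (1 : K) ∈ J →
            MvPolynomial.monomial m' (1 : K) ∈ J) ∧
        ∀ d : ℕ,
          Module.finrank K
              ↥(MvPolynomial.homogeneousSubmodule (Fin n) K d ⊓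
                  Submodule.restrictScalars K I) =
            Module.finrank K
              ↥(MvPolynomial.homogeneousSubmodule (Fin n) K d ⊓
                  Submodule.restrictScalars K
                    (Ideal.span (Set.range fun i : Fin n =>
                        (MvPolynomial.X i : MvPolynomial (Fin n) K) ^ a i) ⊔ J)) := by
  intro K _ n I a f _ hm h2 hhom hfI hreg hc
  obtain ⟨T, k, h, hs, hsm, hc⟩ := hc
  obtain ⟨J, h1, h3, h4⟩ := Pool.Agent.EGY.final Pool.Agent.EGY.a_SM5 Pool.Agent.EGX.a_PSG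
    Pool.Agent.EGX.a_SPM Pool.Agent.EGX.p_BCX Pool.Agent.EGX.p_IDX Pool.Agent.EGX.p_IDY
    K n I a f hm h2 hhom hfI hreg
    ⟨T.card, k, T.orderEmbOfFin rfl, h, fun i hi => hs i (fun hT => hi (by
      rw [Finset.range_orderEmbOfFin]
      exact hT)), hsm, hc⟩
  exact ⟨J, h1, h3, fun d => h4 d (Set.mem_univ d)⟩

end

end Pool.Agent.Results.MP_e5dae2_al.SmallOrSplit
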